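import Pool.Agent.Helper28.BA.GoalsB

/-! # APP (B9): approximation by `2 db V` -/

open Complex MeasureTheory Set Filter Topology Metric
open scoped ContDiff

namespace Pool.Agent.Helper56.BA

open Pool.Agent.Helper28.BA

namespace App

theorem norm_dz_le (f : ℂ → ℂ) (z : ℂ) : ‖dz f z‖ ≤ ‖fderiv ℝ f z‖ := by
  unfold dz
  have h1 : ‖fderiv ℝ f z 1‖ ≤ ‖fderiv ℝ f z‖ := by
    simpa using (fderiv ℝ f z).le_opNorm 1
  have h2 : ‖fderiv ℝ f z I‖ ≤ ‖fderiv ℝ f z‖ := by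
    simpa using (fderiv ℝ f z).le_opNorm I
  have h3 : ‖fderiv ℝ f z 1 - I * fderiv ℝ f z I‖ ≤ ‖fderiv ℝ f z 1‖ + ‖fderiv ℝ f z I‖ := by
    refine (norm_sub_le _ _).trans ?_
    simp
  rw [norm_mul]
  have h4 : ‖(1 / 2 : ℂ)‖ = 1 / 2 := by simp
  rw [h4]
  linarith

theorem norm_db_le (f : ℂ → ℂ) (z : ℂ) : ‖db f z‖ ≤ ‖fderiv ℝ f z‖ := by
  unfold db
  have h1 : ‖fderiv ℝ f z 1‖ ≤ ‖fderiv ℝ f z‖ := by
    simpa using (fderiv ℝ f z).le_opNorm 1
  have h2 : ‖fderiv ℝ f z I‖ ≤ ‖fderiv ℝ f z‖ := by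
    simpa using (fderiv ℝ f z).le_opNorm I
  have h3 : ‖fderiv ℝ f z 1 + I * fderiv ℝ f z I‖ ≤ ‖fderiv ℝ f z 1‖ + ‖fderiv ℝ f z I‖ := by
    refine (norm_add_le _ _).trans ?_
    simp
  rw [norm_mul]
  have h4 : ‖(1 / 2 : ℂ)‖ = 1 / 2 := by simp
  rw [h4]
  linarith

theorem db_smooth {f : ℂ → ℂ} (hf : ContDiff ℝ ∞ f) : ContDiff ℝ ∞ (db f) := by
  have h1 : ContDiff ℝ ∞ (fderiv ℝ f) := hf.fderiv_right (m := ∞) (by simp)
  have h2 : ContDiff ℝ ∞ (fun z => fderiv ℝ f z 1) := h1.clm_apply contDiff_const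
  have h3 : ContDiff ℝ ∞ (fun z => fderiv ℝ f z I) := h1.clm_apply contDiff_const
  exact contDiff_const.mul (h2.add (contDiff_const.mul h3))

theorem db_mul {f g : ℂ → ℂ} {z : ℂ} (hf : DifferentiableAt ℝ f z) (hg : DifferentiableAt ℝ g z) :
    db (fun x => f x * g x) z = f z * db g z + g z * db f z := by
  unfold db
  have h1 : fderiv ℝ (fun x => f x * g x) z = f z • fderiv ℝ g z + g z • fderiv ℝ f z :=
    (hf.hasFDerivAt.mul hg.hasFDerivAt).fderiv
  rw [h1]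
  simp only [ContinuousLinearMap.add_apply, ContinuousLinearMap.smul_apply, smul_eq_mul]
  ring

theorem fderiv_scale {f : ℂ → ℂ} (c : ℝ) {z : ℂ} (hf : DifferentiableAt ℝ f (c • z)) :
    HasFDerivAt (fun x : ℂ => f (c • x))
      ((fderiv ℝ f (c • z)).comp (c • ContinuousLinearMap.id ℝ ℂ)) z := by
  have h1 : HasFDerivAt (fun x : ℂ => c • x) (c • ContinuousLinearMap.id ℝ ℂ) z :=
    (hasFDerivAt_id z).const_smul c
  exact hf.hasFDerivAt.comp z h1

theorem db_scale {f : ℂ → ℂ} (c : ℝ) {z : ℂ} (hf : DifferentiableAt ℝ f (c • z)) :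
    db (fun x => f (c • x)) z = c * db f (c • z) := by
  unfold db
  rw [(fderiv_scale c hf).fderiv]
  simp only [ContinuousLinearMap.comp_apply, ContinuousLinearMap.smul_apply,
    ContinuousLinearMap.id_apply, map_smul]
  simp only [Complex.real_smul]
  ring

theorem int_le {P : ℂ → ℂ} {K n q : ℝ} (hn : 1 ≤ n) (hq : 1 < q) (hK : 0 ≤ K)
    (h1 : ∀ z, ‖P z‖ ≤ K * (n ^ 3)⁻¹) (h2 : ∀ z, 2 * n < ‖z‖ → P z = 0) :
    ∫ z, ‖P z‖ ^ q ≤ 4 * Real.pi * K ^ q / n := by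
  have hn0 : 0 < n := by linarith
  set c := (K * (n ^ 3)⁻¹) ^ q with hc
  have hc0 : 0 ≤ c := by positivity
  have hi : Integrable ((closedBall (0 : ℂ) (2 * n)).indicator fun _ => c) := by
    rw [integrable_indicator_iff isClosed_closedBall.measurableSet]
    exact integrableOn_const (isCompact_closedBall _ _).measure_ne_top
  have h3 : ∫ z, ‖P z‖ ^ q ≤ ∫ z, (closedBall (0 : ℂ) (2 * n)).indicator (fun _ => c) z := by
    refine integral_mono_of_nonneg (ae_of_all _ fun z => by positivity) hi (ae_of_all _ fun z => ?_)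
    by_cases hz : z ∈ closedBall (0 : ℂ) (2 * n)
    · simp only [indicator_of_mem hz]
      exact Real.rpow_le_rpow (norm_nonneg _) (h1 z) (by linarith)
    · simp only [indicator_of_notMem hz]
      rw [mem_closedBall_zero_iff, not_le] at hz
      rw [h2 z hz, norm_zero, Real.zero_rpow (by linarith)]
  refine h3.trans ?_
  rw [integral_indicator isClosed_closedBall.measurableSet, setIntegral_const, smul_eq_mul,
    measureReal_def, Complex.volume_closedBall, ENNReal.toReal_mul, ENNReal.toReal_pow,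
    ENNReal.toReal_ofReal (by positivity)]
  have h4 : c ≤ K ^ q * (n ^ 3)⁻¹ := by
    rw [hc, Real.mul_rpow hK (by positivity)]
    refine mul_le_mul_of_nonneg_left ?_ (by positivity)
    have h5 : (n ^ 3)⁻¹ ≤ 1 := inv_le_one_of_one_le₀ (one_le_pow₀ hn)
    calc ((n ^ 3)⁻¹) ^ q ≤ ((n ^ 3)⁻¹) ^ (1 : ℝ) :=
          Real.rpow_le_rpow_of_exponent_ge (by positivity) h5 hq.le
      _ = (n ^ 3)⁻¹ := Real.rpow_one _
  have h6 : ((NNReal.pi : ENNReal)).toReal = Real.pi := by simp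
  rw [h6]
  calc (2 * n) ^ 2 * Real.pi * c ≤ (2 * n) ^ 2 * Real.pi * (K ^ q * (n ^ 3)⁻¹) :=
        mul_le_mul_of_nonneg_left h4 (by positivity)
    _ = 4 * Real.pi * K ^ q / n := by
        field_simp
        ring

end App

open App in
/-- APP, from CT. -/
theorem APP (h1 : S_CT) : S_APP := by
  intro h hh hc q ε hq hε
  -- the Cauchy transform of `h / 2`
  obtain ⟨V, hV, hdb, C, hC⟩ := h1 (fun z => (1 / 2 : ℂ) * h z) (contDiff_const.mul hh)
    (hc.mul_left (f := fun _ => (1 / 2 : ℂ)))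
  -- the cutoff
  let φ : ContDiffBump (0 : ℂ) := ⟨1, 2, one_pos, one_lt_two⟩
  let χ : ℂ → ℂ := fun z => ((φ z : ℝ) : ℂ)
  have hχ : ContDiff ℝ ∞ χ := Complex.ofRealCLM.contDiff.comp φ.contDiff
  have hχ1 : ∀ z, ‖z‖ ≤ 1 → χ z = 1 := fun z hz => by
    have : φ z = 1 := φ.one_of_mem_closedBall (by simpa [φ] using hz)
    simp [χ, this]
  have hχ0 : ∀ z, 2 ≤ ‖z‖ → χ z = 0 := fun z hz => by
    have : φ z = 0 := φ.zero_of_le_dist (by simpa [φ] using hz)
    simp [χ, this]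
  have hψ : ContDiff ℝ ∞ (db χ) := db_smooth hχ
  have hψ1 : ∀ z, ‖z‖ < 1 → db χ z = 0 := by
    intro z hz
    have h2 : χ =ᶠ[𝓝 z] fun _ => (1 : ℂ) := by
      filter_upwards [isOpen_ball.mem_nhds (mem_ball_zero_iff.2 hz)] with y hy
      exact hχ1 y (mem_ball_zero_iff.1 hy).le
    unfold db
    rw [h2.fderiv_eq]
    simp
  have hψ2 : ∀ z, 2 < ‖z‖ → db χ z = 0 := by
    intro z hz
    have ho : IsOpen {y : ℂ | 2 < ‖y‖} := isOpen_lt continuous_const continuous_norm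
    have h2 : χ =ᶠ[𝓝 z] fun _ => (0 : ℂ) := by
      filter_upwards [ho.mem_nhds hz] with y hy
      exact hχ0 y (le_of_lt hy)
    unfold db
    rw [h2.fderiv_eq]
    simp
  have hψ3 : ∀ z, ‖z‖ < 1 → fderiv ℝ (db χ) z = 0 := by
    intro z hz
    have h2 : db χ =ᶠ[𝓝 z] fun _ => (0 : ℂ) := by
      filter_upwards [isOpen_ball.mem_nhds (mem_ball_zero_iff.2 hz)] with y hy
      exact hψ1 y (mem_ball_zero_iff.1 hy)
    rw [h2.fderiv_eq]
    simp
  have hψ4 : ∀ z, 2 < ‖z‖ → fderiv ℝ (db χ) z = 0 := by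
    intro z hz
    have ho : IsOpen {y : ℂ | 2 < ‖y‖} := isOpen_lt continuous_const continuous_norm
    have h2 : db χ =ᶠ[𝓝 z] fun _ => (0 : ℂ) := by
      filter_upwards [ho.mem_nhds hz] with y hy
      exact hψ2 y hy
    rw [h2.fderiv_eq]
    simp
  have hcs : HasCompactSupport (db χ) :=
    HasCompactSupport.intro (isCompact_closedBall (0 : ℂ) 2) fun z hz => by
      rw [mem_closedBall_zero_iff, not_le] at hz
      exact hψ2 z hz
  obtain ⟨M₀, hM₀⟩ := hcs.exists_bound_of_continuous hψ.continuous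
  obtain ⟨M₁, hM₁⟩ := (hcs.fderiv (𝕜 := ℝ)).exists_bound_of_continuous
    (hψ.continuous_fderiv (by simp))
  have hM₀0 : 0 ≤ M₀ := (norm_nonneg _).trans (hM₀ 0)
  have hM₁0 : 0 ≤ M₁ := (norm_nonneg _).trans (hM₁ 0)
  have hC0 : 0 ≤ C := by
    refine le_trans ?_ (hC 0).1
    positivity
  -- the radius of the support of `h`
  obtain ⟨R, hR⟩ := hc.isCompact.isBounded.subset_closedBall (0 : ℂ)
  have hhR : ∀ z, R < ‖z‖ → h z = 0 := by
    intro z hz
    by_contra h2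
    have := hR (subset_tsupport _ (Function.mem_support.2 h2))
    rw [mem_closedBall_zero_iff] at this
    linarith
  set K := 2 * C * (M₀ + M₁) with hK
  have hK0 : 0 ≤ K := by positivity
  -- the choice of `n`
  obtain ⟨n, hn1, hnR, hnε⟩ : ∃ n : ℝ, 1 ≤ n ∧ R ≤ n ∧ 4 * Real.pi * K ^ q / n ≤ ε := by
    refine ⟨max (max 1 R) (4 * Real.pi * K ^ q / ε), (le_max_left _ _).trans (le_max_left _ _),
      (le_max_right _ _).trans (le_max_left _ _), ?_⟩
    have h2 : 4 * Real.pi * K ^ q / ε ≤ max (max 1 R) (4 * Real.pi * K ^ q / ε) := le_max_right _ _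
    have h3 : 0 < max (max 1 R) (4 * Real.pi * K ^ q / ε) :=
      lt_of_lt_of_le one_pos ((le_max_left _ _).trans (le_max_left _ _))
    rw [div_le_iff₀ h3]
    rw [div_le_iff₀ hε] at h2
    linarith
  have hn0 : 0 < n := by linarith
  have hsc : ∀ z : ℂ, ‖n⁻¹ • z‖ = n⁻¹ * ‖z‖ := fun z => by
    rw [norm_smul, Real.norm_of_nonneg (by positivity)]
  have hlt : ∀ z : ℂ, ‖z‖ < n → ‖n⁻¹ • z‖ < 1 := fun z hz => by
    rw [hsc, inv_mul_lt_iff₀ hn0]
    linarith
  have hgt : ∀ z : ℂ, 2 * n < ‖z‖ → 2 < ‖n⁻¹ • z‖ := fun z hz => by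
    rw [hsc, lt_inv_mul_iff₀ hn0]
    linarith
  have hVd : ∀ z, DifferentiableAt ℝ V z := fun z => (hV.differentiable (by simp)) z
  have hψd : ∀ z, DifferentiableAt ℝ (db χ) z := fun z => (hψ.differentiable (by simp)) z
  have hχd : ∀ z, DifferentiableAt ℝ χ z := fun z => (hχ.differentiable (by simp)) z
  have hhd : ∀ z, DifferentiableAt ℝ h z := fun z => (hh.differentiable (by simp)) z
  -- the approximation
  let g : ℂ → ℂ := fun z => (2 * (n⁻¹ : ℝ) : ℂ) * (V z * db χ (n⁻¹ • z))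
  have hgd : ∀ z, HasFDerivAt g ((2 * (n⁻¹ : ℝ) : ℂ) •
      (V z • (fderiv ℝ (db χ) (n⁻¹ • z)).comp (n⁻¹ • ContinuousLinearMap.id ℝ ℂ) +
        db χ (n⁻¹ • z) • fderiv ℝ V z)) z := by
    intro z
    have h2 := (hVd z).hasFDerivAt.mul (fderiv_scale n⁻¹ (hψd (n⁻¹ • z)))
    exact h2.const_mul _
  have hgb : ∀ z, ‖fderiv ℝ g z‖ ≤ K * (n ^ 3)⁻¹ := by
    intro z
    rw [(hgd z).fderiv]
    rcases lt_or_ge ‖z‖ n with hz | hz
    · rw [hψ1 _ (hlt z hz), hψ3 _ (hlt z hz)]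
      simp only [ContinuousLinearMap.zero_comp, smul_zero, zero_smul, add_zero, norm_zero]
      positivity
    · have a1 : ‖V z‖ ≤ C * n⁻¹ := by
        have h2 := (hC z).1
        have h3 : ‖V z‖ * n ≤ C := by
          refine le_trans ?_ h2
          exact mul_le_mul_of_nonneg_left (by linarith) (norm_nonneg _)
        rw [← div_eq_mul_inv, le_div_iff₀ hn0]
        exact h3
      have a2 : ‖fderiv ℝ V z‖ ≤ C * (n ^ 2)⁻¹ := by
        have h2 := (hC z).2.1
        have h3 : ‖fderiv ℝ V z‖ * n ^ 2 ≤ C := by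
          refine le_trans ?_ h2
          refine mul_le_mul_of_nonneg_left ?_ (norm_nonneg _)
          exact pow_le_pow_left₀ hn0.le (by linarith) 2
        rw [← div_eq_mul_inv, le_div_iff₀ (by positivity)]
        exact h3
      have a3 : ‖(fderiv ℝ (db χ) (n⁻¹ • z)).comp (n⁻¹ • ContinuousLinearMap.id ℝ ℂ)‖ ≤
          M₁ * n⁻¹ := by
        refine (ContinuousLinearMap.opNorm_comp_le _ _).trans ?_
        refine mul_le_mul (hM₁ _) ?_ (norm_nonneg _) hM₁0
        rw [norm_smul, Real.norm_of_nonneg (by positivity)]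
        have := ContinuousLinearMap.norm_id_le (𝕜 := ℝ) (E := ℂ)
        have h4 : 0 ≤ n⁻¹ := by positivity
        nlinarith
      have a4 : ‖(2 * (n⁻¹ : ℝ) : ℂ)‖ = 2 * n⁻¹ := by
        rw [norm_mul, Complex.norm_real, Real.norm_of_nonneg (by positivity)]
        simp
      rw [norm_smul, a4]
      have a5 : ‖V z • (fderiv ℝ (db χ) (n⁻¹ • z)).comp (n⁻¹ • ContinuousLinearMap.id ℝ ℂ) +
          db χ (n⁻¹ • z) • fderiv ℝ V z‖ ≤ C * n⁻¹ * (M₁ * n⁻¹) + M₀ * (C * (n ^ 2)⁻¹) := by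
        refine (norm_add_le _ _).trans (add_le_add ?_ ?_)
        · rw [norm_smul]
          exact mul_le_mul a1 a3 (norm_nonneg _) (by positivity)
        · rw [norm_smul]
          exact mul_le_mul (hM₀ _) a2 (norm_nonneg _) hM₀0
      calc 2 * n⁻¹ * ‖V z • (fderiv ℝ (db χ) (n⁻¹ • z)).comp
            (n⁻¹ • ContinuousLinearMap.id ℝ ℂ) + db χ (n⁻¹ • z) • fderiv ℝ V z‖ ≤
          2 * n⁻¹ * (C * n⁻¹ * (M₁ * n⁻¹) + M₀ * (C * (n ^ 2)⁻¹)) :=
            mul_le_mul_of_nonneg_left a5 (by positivity)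
        _ = K * (n ^ 3)⁻¹ := by
            rw [hK]
            field_simp
            ring
  have hg0 : ∀ z, 2 * n < ‖z‖ → fderiv ℝ g z = 0 := by
    intro z hz
    rw [(hgd z).fderiv, hψ2 _ (hgt z hz), hψ4 _ (hgt z hz)]
    simp
  have hWs : ContDiff ℝ ∞ (fun z : ℂ => χ (n⁻¹ • z) * V z) :=
    (hχ.comp (contDiff_const_smul n⁻¹)).mul hV
  have hF : ∀ z, 2 * db (fun x : ℂ => χ (n⁻¹ • x) * V x) z = h z + g z := by
    intro z
    have h2 : DifferentiableAt ℝ (fun x : ℂ => χ (n⁻¹ • x)) z :=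
      (fderiv_scale n⁻¹ (hχd (n⁻¹ • z))).differentiableAt
    rw [db_mul h2 (hVd z), hdb z, db_scale n⁻¹ (hχd (n⁻¹ • z))]
    have h3 : χ (n⁻¹ • z) * h z = h z := by
      rcases le_or_gt ‖z‖ n with hz | hz
      · rw [hχ1 _ (by rw [hsc, inv_mul_le_iff₀ hn0]; linarith), one_mul]
      · rw [hhR z (by linarith), mul_zero]
    simp only [g]
    linear_combination h3
  have hFeq : (fun z => 2 * db (fun x : ℂ => χ (n⁻¹ • x) * V x) z) = fun z => h z + g z :=
    funext hF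
  have hfd : ∀ z, fderiv ℝ (fun z => 2 * db (fun x : ℂ => χ (n⁻¹ • x) * V x) z) z =
      fderiv ℝ h z + fderiv ℝ g z := by
    intro z
    rw [hFeq]
    exact ((hhd z).hasFDerivAt.add (hgd z).differentiableAt.hasFDerivAt).fderiv
  refine ⟨fun z => χ (n⁻¹ • z) * V z, hWs, ?_, ?_, ?_⟩
  · refine HasCompactSupport.intro (isCompact_closedBall (0 : ℂ) (2 * n)) fun z hz => ?_
    rw [mem_closedBall_zero_iff, not_le] at hz
    rw [hχ0 _ (hgt z hz).le, zero_mul]
  · have h2 : ∀ z, dz (fun z => 2 * db (fun x : ℂ => χ (n⁻¹ • x) * V x) z) z - dz h z =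
        dz g z := by
      intro z
      unfold dz
      rw [hfd z]
      simp only [ContinuousLinearMap.add_apply]
      ring
    simp only [h2]
    exact (int_le hn1 hq hK0 (fun z => (norm_dz_le g z).trans (hgb z)) fun z hz => by
      unfold dz
      rw [hg0 z hz]
      simp).trans hnε
  · have h2 : ∀ z, db (fun z => 2 * db (fun x : ℂ => χ (n⁻¹ • x) * V x) z) z - db h z =
        db g z := by
      intro z
      change (1 / 2 : ℂ) * _ - (1 / 2 : ℂ) * _ = (1 / 2 : ℂ) * _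
      rw [hfd z]
      simp only [ContinuousLinearMap.add_apply]
      ring
    simp only [h2]
    exact (int_le hn1 hq hK0 (fun z => (norm_db_le g z).trans (hgb z)) fun z hz => by
      unfold db
      rw [hg0 z hz]
      simp).trans hnε

end Pool.Agent.Helper56.BA
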