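import Pool.Agent.Helper28.BA.GoalsB

/-!
# ROT: rotated potentials
-/

open Complex MeasureTheory Set Filter Topology
open scoped ContDiff

namespace Pool.Agent.Helper56.BA

open Pool.Agent.Helper28.BA

/-- the first derivative in the direction `v` -/
noncomputable def dv (V : ℂ → ℂ) (v : ℂ) (z : ℂ) : ℂ := fderiv ℝ V z v

theorem dv_contDiff {V : ℂ → ℂ} {m n : WithTop ℕ∞} (hV : ContDiff ℝ n V) (h : m + 1 ≤ n) (v : ℂ) :
    ContDiff ℝ m (dv V v) :=
  (hV.fderiv_right h).clm_apply contDiff_const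

theorem dv_symm {V : ℂ → ℂ} (hV : ContDiff ℝ 3 V) (v w z : ℂ) :
    dv (dv V v) w z = dv (dv V w) v z := by
  have h1 : DifferentiableAt ℝ (fderiv ℝ V) z :=
    ((hV.fderiv_right (m := 1) (by norm_num)).differentiable (by norm_num)) z
  have key : ∀ v w : ℂ, dv (dv V v) w z = fderiv ℝ (fderiv ℝ V) z w v := by
    intro v w
    change fderiv ℝ (fun y => fderiv ℝ V y v) z w = _
    rw [fderiv_clm_apply h1 (differentiableAt_const v)]
    simp
  rw [key, key]
  have h23 : (2 : WithTop ℕ∞) ≤ 3 := by exact_mod_cast (by norm_num : (2 : ℕ) ≤ 3)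
  exact (hV.contDiffAt.isSymmSndFDerivAt (by simpa using h23)).eq w v

theorem dz_eq (V : ℂ → ℂ) (z : ℂ) : dz V z = (1 / 2 : ℂ) * (dv V 1 z - I * dv V I z) := rfl

theorem db_eq (V : ℂ → ℂ) (z : ℂ) : db V z = (1 / 2 : ℂ) * (dv V 1 z + I * dv V I z) := rfl

theorem dv_comb {F G : ℂ → ℂ} (hF : ContDiff ℝ 1 F) (hG : ContDiff ℝ 1 G) (a b : ℂ) (v z : ℂ) :
    dv (fun y => a * F y + b * G y) v z = a * dv F v z + b * dv G v z := by
  have h1 : DifferentiableAt ℝ F z := hF.differentiable (by norm_num) z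
  have h2 : DifferentiableAt ℝ G z := hG.differentiable (by norm_num) z
  have h3 := (h1.hasFDerivAt.const_mul a).add (h2.hasFDerivAt.const_mul b)
  unfold dv
  change fderiv ℝ (fun y => a * F y + b * G y) z v = _
  rw [HasFDerivAt.fderiv (f := fun y => a * F y + b * G y) h3]
  rfl

/-- the real linear map `w ↦ Re (e w)` -/
noncomputable def PL (e : ℂ) : ℂ →L[ℝ] ℂ :=
  (Complex.ofRealCLM.comp Complex.reCLM).comp (ContinuousLinearMap.mul ℝ ℂ e)

theorem PL_apply (e w : ℂ) : PL e w = (((e * w).re : ℝ) : ℂ) := rfl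

theorem grd_eq {V : ℂ → ℂ} (hV : ContDiff ℝ 3 V) (e : ℂ) :
    (grd fun x => (e * V x).re) = fun z => PL e (dv V 1 z) + I * PL e (dv V I z) := by
  funext z
  have h1 : DifferentiableAt ℝ V z := hV.differentiable (by norm_num) z
  have h2 : ∀ v, fderiv ℝ (fun x => (e * V x).re) z v = (e * dv V v z).re := by
    intro v
    have h3 := (Complex.reCLM.comp (ContinuousLinearMap.mul ℝ ℂ e)).hasFDerivAt.comp z
      h1.hasFDerivAt
    rw [HasFDerivAt.fderiv (f := fun x => (e * V x).re) h3]
    rfl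
  unfold grd
  rw [h2, h2]
  apply Complex.ext
  · simp [PL_apply]
  · simp [PL_apply]

theorem dv_PL {F G : ℂ → ℂ} (hF : ContDiff ℝ 1 F) (hG : ContDiff ℝ 1 G) (e v z : ℂ) :
    dv (fun y => PL e (F y) + I * PL e (G y)) v z = PL e (dv F v z) + I * PL e (dv G v z) := by
  have h1 : DifferentiableAt ℝ F z := hF.differentiable (by norm_num) z
  have h2 : DifferentiableAt ℝ G z := hG.differentiable (by norm_num) z
  have h3 := ((PL e).hasFDerivAt.comp z h1.hasFDerivAt).add
    (((PL e).hasFDerivAt.comp z h2.hasFDerivAt).const_mul I)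
  unfold dv
  rw [HasFDerivAt.fderiv (f := fun y => PL e (F y) + I * PL e (G y)) h3]
  rfl

theorem ROT : S_ROT := by
  intro V hV hs
  have c1 : ContDiff ℝ 1 (dv V 1) := dv_contDiff hV (by norm_num) 1
  have cI : ContDiff ℝ 1 (dv V I) := dv_contDiff hV (by norm_num) I
  have d1 : ∀ v w, Continuous (dv (dv V v) w) := fun v w =>
    (dv_contDiff (m := 0) (dv_contDiff (m := 1) hV (by norm_num) v) (by norm_num) w).continuous
  have s1 : ∀ v, HasCompactSupport (dv V v) := fun v => by
    have h := hs.fderiv (𝕜 := ℝ)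
    exact h.comp_left (g := fun L : ℂ →L[ℝ] ℂ => L v) (by simp)
  have s2 : ∀ v w, HasCompactSupport (dv (dv V v) w) := fun v w => by
    have h := (s1 v).fderiv (𝕜 := ℝ)
    exact h.comp_left (g := fun L : ℂ →L[ℝ] ℂ => L w) (by simp)
  refine ⟨fun z => (1 / 2 : ℂ) * ((starRingEnd ℂ) (dv (dv V 1) 1 z) -
    (starRingEnd ℂ) (dv (dv V I) I z) + 2 * I * (starRingEnd ℂ) (dv (dv V 1) I z)), ?_, ?_, ?_⟩
  · have e1 := Complex.continuous_conj.comp (d1 1 1)
    have e2 := Complex.continuous_conj.comp (d1 I I)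
    have e3 := Complex.continuous_conj.comp (d1 1 I)
    exact continuous_const.mul ((e1.sub e2).add (continuous_const.mul e3))
  · have e1 : HasCompactSupport fun z => (starRingEnd ℂ) (dv (dv V 1) 1 z) :=
      (s2 1 1).comp_left (g := fun w : ℂ => (starRingEnd ℂ) w) (map_zero _)
    have e2 : HasCompactSupport fun z => (starRingEnd ℂ) (dv (dv V I) I z) :=
      (s2 I I).comp_left (g := fun w : ℂ => (starRingEnd ℂ) w) (map_zero _)
    have e3 : HasCompactSupport fun z => (starRingEnd ℂ) (dv (dv V 1) I z) :=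
      (s2 1 I).comp_left (g := fun w : ℂ => (starRingEnd ℂ) w) (map_zero _)
    exact ((e1.sub e2).add (e3.mul_left)).mul_left
  · intro θ z
    have hexp : exp (θ * I) = (starRingEnd ℂ) (exp (-(θ * I))) := by
      rw [← Complex.exp_conj]
      congr 1
      simp
    set e := exp (-(θ * I)) with he
    have hdb : (fun x => 2 * db V x) = fun x => 1 * dv V 1 x + I * dv V I x := by
      funext x
      rw [db_eq]
      ring
    have hC : dv (dv V I) 1 z = dv (dv V 1) I z := dv_symm hV I 1 z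
    have g1 : ∀ v, dv (grd fun x => (e * V x).re) v z =
        PL e (dv (dv V 1) v z) + I * PL e (dv (dv V I) v z) := by
      intro v
      rw [grd_eq hV e]
      exact dv_PL c1 cI e v z
    constructor
    · rw [dz_eq, g1, g1, hdb, dz_eq, dv_comb c1 cI, dv_comb c1 cI, hC]
      apply Complex.ext
      · simp [PL_apply]
        ring
      · simp [PL_apply]
    · rw [db_eq, g1, g1, hdb, db_eq, dv_comb c1 cI, dv_comb c1 cI, hC, hexp]
      apply Complex.ext
      · simp [PL_apply]
        ring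
      · simp [PL_apply]
        ring

end Pool.Agent.Helper56.BA
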