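import Pool.Agent.Helper28.BA.GoalsC

/-!
# MP_f7b570_an, packet NUM: two numerical inequalities
-/

open Set

namespace Pool.Agent.Helper56.BA

open Pool.Agent.Helper28.BA

/-- The function whose minimum is at `P = 4`. -/
noncomputable def gf (P : ℝ) : ℝ := Real.log (P - 1) + (16 / 3) * P⁻¹

lemma gf_deriv {P : ℝ} (hP : 1 < P) :
    HasDerivAt gf (1 / (P - 1) + (16 / 3) * (-(P ^ 2)⁻¹)) P := by
  have h1 : HasDerivAt (fun P : ℝ => P - 1) 1 P := (hasDerivAt_id P).sub_const 1
  have h2 := h1.log (by linarith : P - 1 ≠ 0)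
  have h3 := (hasDerivAt_inv (by linarith : P ≠ 0)).const_mul (16 / 3 : ℝ)
  exact h2.add h3

lemma gf_dval {P : ℝ} (hP : 1 < P) : 1 / (P - 1) + (16 / 3) * (-(P ^ 2)⁻¹) =
    (3 * P - 4) * (P - 4) / (3 * P ^ 2 * (P - 1)) := by
  have h1 : P - 1 ≠ 0 := by linarith
  have h2 : P ≠ 0 := by linarith
  field_simp
  ring

lemma gf_cont {a b : ℝ} (ha : 1 < a) : ContinuousOn gf (Icc a b) := fun x hx =>
  (gf_deriv (lt_of_lt_of_le ha hx.1)).continuousAt.continuousWithinAt

lemma gf_min {P : ℝ} (h2 : 2 ≤ P) (h5 : P ≤ 5) : Real.log 3 + 4 / 3 ≤ gf P := by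
  have h4 : gf 4 = Real.log 3 + 4 / 3 := by
    unfold gf
    norm_num
  rw [← h4]
  rcases le_total P 4 with h | h
  · have hanti : AntitoneOn gf (Icc 2 4) := by
      apply antitoneOn_of_deriv_nonpos (convex_Icc 2 4) (gf_cont (by norm_num))
      · intro x hx
        rw [interior_Icc] at hx
        exact (gf_deriv (by linarith [hx.1])).differentiableAt.differentiableWithinAt
      · intro x hx
        rw [interior_Icc] at hx
        have hx1 : 1 < x := by linarith [hx.1]
        rw [(gf_deriv hx1).deriv, gf_dval hx1]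
        apply div_nonpos_of_nonpos_of_nonneg
        · exact mul_nonpos_of_nonneg_of_nonpos (by linarith [hx.1]) (by linarith [hx.2])
        · have : 0 ≤ x - 1 := by linarith
          positivity
    exact hanti ⟨h2, h⟩ ⟨by norm_num, le_refl _⟩ h
  · have hmono : MonotoneOn gf (Icc 4 5) := by
      apply monotoneOn_of_deriv_nonneg (convex_Icc 4 5) (gf_cont (by norm_num))
      · intro x hx
        rw [interior_Icc] at hx
        exact (gf_deriv (by linarith [hx.1])).differentiableAt.differentiableWithinAt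
      · intro x hx
        rw [interior_Icc] at hx
        have hx1 : 1 < x := by linarith [hx.1]
        rw [(gf_deriv hx1).deriv, gf_dval hx1]
        apply div_nonneg
        · exact mul_nonneg (by linarith [hx.1]) (by linarith [hx.1])
        · have : 0 ≤ x - 1 := by linarith
          positivity
    exact hmono ⟨le_refl _, by norm_num⟩ ⟨h, h5⟩ h

lemma log_lo : 4 / 3 ≤ Real.log (381 / 100) := by
  have h : Real.exp 4 ≤ (381 / 100 : ℝ) ^ 3 := by
    have he : Real.exp 4 = Real.exp 1 ^ 4 := by rw [← Real.exp_nat_mul]; norm_num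
    rw [he]
    have := Real.exp_one_lt_d9
    calc Real.exp 1 ^ 4 ≤ (2.7182818286 : ℝ) ^ 4 :=
          pow_le_pow_left₀ (Real.exp_pos 1).le this.le 4
      _ ≤ _ := by norm_num
  have h2 := (Real.le_log_iff_exp_le (by norm_num)).2 h
  rw [Real.log_pow] at h2
  push_cast at h2
  linarith

lemma log_hi : Real.log (497 / 100) ≤ Real.log (381 / 100) + 4 / 15 := by
  have h : (497 / 381 : ℝ) ^ 15 ≤ Real.exp 4 := by
    have he : Real.exp 4 = Real.exp 1 ^ 4 := by rw [← Real.exp_nat_mul]; norm_num
    rw [he]
    have := Real.exp_one_gt_d9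
    calc (497 / 381 : ℝ) ^ 15 ≤ (2.7182818283 : ℝ) ^ 4 := by norm_num
      _ ≤ Real.exp 1 ^ 4 := pow_le_pow_left₀ (by norm_num) this.le 4
  have h2 := (Real.log_le_iff_le_exp (by norm_num)).2 h
  rw [Real.log_pow] at h2
  have h3 : Real.log (497 / 381 : ℝ) = Real.log (497 / 100) - Real.log (381 / 100) := by
    rw [← Real.log_div (by norm_num) (by norm_num)]
    norm_num
  rw [h3] at h2
  push_cast at h2
  linarith

theorem NUM : S_NUM := by
  constructor
  · intro P h2 h5
    have hP1 : 0 < P - 1 := by linarith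
    have hP0 : 0 < P := by linarith
    rw [Real.rpow_def_of_pos (by norm_num), ← Real.le_log_iff_exp_le (by positivity),
      Real.log_mul (by norm_num) hP1.ne']
    have hg := gf_min h2 h5
    unfold gf at hg
    have hl3 : Real.log (381 / 100) = Real.log (127 / 100) + Real.log 3 := by
      rw [← Real.log_mul (by norm_num) (by norm_num)]
      norm_num
    have hlo := log_lo
    have hhi := log_hi
    have hx : (10 : ℝ) / (3 * P) = (10 / 3) * P⁻¹ := by
      rw [div_mul_eq_div_div, div_eq_mul_inv]
    rw [hx]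
    have hx5 : 1 / 5 ≤ P⁻¹ := by
      rw [← one_div]
      exact one_div_le_one_div_of_le hP0 h5
    have hx2 : P⁻¹ ≤ 1 / 2 := by
      rw [← one_div]
      exact one_div_le_one_div_of_le (by norm_num) h2
    have h6 : Real.log (497 / 100) * (5 / 3 - 10 / 3 * P⁻¹) ≤
        (Real.log (381 / 100) + 4 / 15) * (5 / 3 - 10 / 3 * P⁻¹) :=
      mul_le_mul_of_nonneg_right hhi (by linarith)
    have h7 : 0 ≤ (P⁻¹ - 1 / 5) * (Real.log (381 / 100) - 4 / 3) :=
      mul_nonneg (by linarith) (by linarith)
    nlinarith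
  · intro P h5
    have hP0 : 0 < P := by linarith
    have hpi := Real.pi_pos
    have hbase : 0 < Real.pi * (P + 1) / 2 := by positivity
    rw [Real.rpow_def_of_pos hbase, ← Real.le_log_iff_exp_le (by norm_num)]
    have h1 : Real.log (Real.pi * (P + 1) / 2) ≤ 10 * Real.log (127 / 100) + (P - 5) / 6 := by
      have e1 : Real.pi * (P + 1) / 2 = (3 * Real.pi) * ((P + 1) / 6) := by ring
      rw [e1, Real.log_mul (by positivity) (by positivity)]
      have e2 : Real.log (3 * Real.pi) ≤ 10 * Real.log (127 / 100) := by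
        have : (10 : ℝ) * Real.log (127 / 100) = Real.log ((127 / 100) ^ 10) := by
          rw [Real.log_pow]; norm_num
        rw [this]
        apply Real.log_le_log (by positivity)
        have := Real.pi_lt_d2
        calc 3 * Real.pi ≤ 3 * 3.15 := by linarith
          _ ≤ _ := by norm_num
      have e3 := Real.log_le_sub_one_of_pos (show 0 < (P + 1) / 6 by positivity)
      linarith
    have h2 : (1 : ℝ) / 12 ≤ Real.log (127 / 100) := by
      have := Real.one_sub_inv_le_log_of_pos (show (0 : ℝ) < 127 / 100 by norm_num)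
      norm_num at this ⊢
      linarith
    have h3 : Real.log (Real.pi * (P + 1) / 2) ≤ (2 * P) * Real.log (127 / 100) := by
      nlinarith
    rw [mul_one_div, div_le_iff₀ (by positivity)]
    linarith

end Pool.Agent.Helper56.BA
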